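import Pool.Agent.Helper45.LS.L2.P
import Pool.Agent.Helper45.LS.L2.K0
import Pool.Agent.Helper45.LS.L2.K1
import Pool.Agent.Helper45.LS.T4

set_option autoImplicit false

/-!
Link certificate L2: the link lemma.
-/

namespace LS.L2

open LS

theorem ck : ∀ k < 20, chk C k = true := by
  intro k hk
  interval_cases k
  · exact k0
  · exact k1
  · exact k2
  · exact k3
  · exact k4
  · exact k5
  · exact k6
  · exact k7
  · exact k8
  · exact k9
  · exact k10
  · exact k11
  · exact k12
  · exact k13
  · exact k14
  · exact k15
  · exact k16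
  · exact k17
  · exact k18
  · exact k19

/-- The link lemma with the numbers of the certificate. -/
theorem linkL : LR.LinkL (1 / 200) (1 / 30) (-66767483 / 939524096) (72 / 7) (108) (144) (2193 / 1879048192) (4057776329 / 939524096) := by
  have h := LS.linkL ok ck (by decide) (by decide)
  have e1 : C.A = 1 := rfl
  have e2 : C.B = 30 := rfl
  have e3 : C.VP = 0 := rfl
  have e4 : C.VM = 133534966 := rfl
  have e5 : C.VQ = 19327352832 := rfl
  have e6 : C.CI = 202937204736 := rfl
  have e7 : C.CO = 270582939648 := rfl
  have e8 : C.SC = 1879048192 := rfl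
  rw [e1, e2, e3, e4, e5, e6, e7, e8] at h
  norm_num at h ⊢
  exact h

/-- The link lemma with rounded numbers. -/
theorem link : LR.LinkL (50 / 10000) (1 / 30) (-710 / 10000) (72 / 7) 108 144 0 (108 / 25) := by
  have h : (50 / 10000 : ℝ) = 1 / 200 := by norm_num
  rw [h]
  exact LS.mono linkL (by norm_num) (by norm_num) (by norm_num)

end LS.L2
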